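import Pool.Agent.MP_55e428_gt.H17.Core

/-! Non-metrizable Corson compact and Eberlein compact spaces have uncountable families of pairs
that accumulate only at the diagonal. -/

namespace Pool.Agent.MP_55e428_gt.H17

open Set Filter Topology TopologicalSpace Submodule

variable {K : Type} [TopologicalSpace K] [CompactSpace K]

theorem pairs_sigma {Γ : Type} (e : K → Γ → ℝ) (hc : Continuous e) (hi : Function.Injective e)
    (hs : ∀ a, (Function.support (e a)).Countable) (hK : ¬MetrizableSpace K) : Pairs K := by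
  classical
  have cc : ∀ γ, Continuous fun a => e a γ := fun γ => (continuous_apply γ).comp hc
  obtain ⟨I, _, _, z, hI, hz⟩ := exists_rec (fun (A : Set (K × K)) p => p.1 ≠ p.2 ∧
      ∀ q ∈ A, ∀ γ, e q.1 γ ≠ e q.2 γ → e p.1 γ = e p.2 γ) fun A hA => by
    by_contra hn
    have hB : (⋃ q ∈ A, Function.support (e q.1) ∪ Function.support (e q.2)).Countable :=
      hA.biUnion fun q _ => (hs _).union (hs _)
    have := hB.to_subtype
    refine hK (metr (fun (γ : (⋃ q ∈ A, Function.support (e q.1) ∪ Function.support (e q.2) :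
      Set Γ)) a => e a γ) (fun γ => cc γ) fun a b h => ?_)
    by_contra hab
    refine hn ⟨(a, b), hab, fun q hq γ hγ => h ⟨γ, mem_biUnion hq ?_⟩⟩
    by_contra k
    simp only [mem_union, Function.mem_support, not_or, not_not] at k
    exact hγ (k.1.trans k.2.symm)
  have hd : ∀ i j γ, i ≠ j → e (z i).1 γ ≠ e (z i).2 γ → e (z j).1 γ = e (z j).2 γ := by
    intro i j γ hij h
    rcases hij.lt_or_gt with k | k
    · exact (hz j).2 _ ⟨i, k, rfl⟩ γ h
    · by_contra k2
      exact h ((hz i).2 _ ⟨j, k, rfl⟩ γ k2)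
  refine ⟨I, inferInstance, inferInstance, inferInstance, fun i => (z i).1, fun i => (z i).2, hI,
    fun g hg a b ha hb => hi (funext fun γ => ?_), fun i => ?_⟩
  · refine tendsto_nhds_unique_of_eventuallyEq (((cc γ).tendsto a).comp ha)
      (((cc γ).tendsto b).comp hb) (hyperfilter_le_cofinite (Set.Subsingleton.finite ?_))
    intro m hm n hn
    by_contra k
    exact hn (hd _ _ γ (hg.injective.ne k) hm)
  · obtain ⟨γ, hγ⟩ := Function.ne_iff.1 (hi.ne (hz i).1)
    refine ⟨fun a => e a γ / (e (z i).1 γ - e (z i).2 γ), (cc γ).div_const _, fun j => ?_⟩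
    rw [← sub_div]
    split_ifs with k
    · rw [k, div_self (sub_ne_zero.2 hγ)]
    · rw [hd i j γ (Ne.symm k) hγ, sub_self, zero_div]

section Weak

variable {E : Type} [NormedAddCommGroup E] [NormedSpace ℝ E]

lemma sep (V : Submodule ℝ E) {w : E} (hw : w ∉ closure (V : Set E)) :
    ∃ ψ : StrongDual ℝ E, (∀ v ∈ V, ψ v = 0) ∧ ψ w = 1 := by
  obtain ⟨f, u, h1, h2⟩ := geometric_hahn_banach_closed_point V.convex.closure isClosed_closure hw
  have h0 : 0 < u := by simpa using h1 0 (subset_closure V.zero_mem)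
  refine ⟨(f w)⁻¹ • f, fun v hv => ?_, inv_mul_cancel₀ (h0.trans h2).ne'⟩
  by_cases k : f v = 0
  · simp [k]
  · have := h1 _ (subset_closure (V.smul_mem (u / f v) hv))
    rw [map_smul, smul_eq_mul, div_mul_cancel₀ _ k] at this
    exact (this.false).elim

/-- A monotone transfinite basic sequence. -/
lemma mono {I : Type} [LinearOrder I] {z : I → E}
    (h : ∀ i, ∀ u ∈ span ℝ (z '' Iio i), ∀ c : ℝ, ‖u‖ ≤ ‖u + c • z i‖) {S T : Set I}
    (hST : ∀ i ∈ S, ∀ j ∈ T, i < j) {u v : E} (hu : u ∈ span ℝ (z '' S))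
    (hv : v ∈ closure (span ℝ (z '' T) : Set E)) : ‖u‖ ≤ ‖u + v‖ := by
  classical
  refine closure_minimal (t := {v | ‖u‖ ≤ ‖u + v‖}) (fun v hv => ?_)
    (isClosed_le continuous_const (by fun_prop)) hv
  obtain ⟨l, hl, rfl⟩ := (Finsupp.mem_span_image_iff_linearCombination ℝ).1 hv
  have k : ∀ s : Finset I, ↑s ⊆ T → ‖u‖ ≤ ‖u + ∑ j ∈ s, l j • z j‖ := fun s => by
    induction s using Finset.induction_on_max with
    | empty => simp
    | insert a s ha ih =>
      intro hs
      rw [Finset.coe_insert, insert_subset_iff] at hs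
      rw [Finset.sum_insert fun k => (ha a k).false, add_comm (l a • z a), ← add_assoc]
      exact (ih hs.2).trans (h a _ (add_mem (span_mono (image_mono fun i hi => hST i hi a hs.1) hu)
        (sum_mem fun j hj => smul_mem _ _ (subset_span ⟨j, ha j hj, rfl⟩))) _)
  exact k l.support hl

theorem pairs_weak (e : K → WeakSpace ℝ E) (hc : Continuous e) (hi : Function.Injective e)
    (hK : ¬MetrizableSpace K) : Pairs K := by
  classical
  obtain ⟨ε, hε, cc⟩ : ∃ ε : K → E, Function.Injective ε ∧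
      ∀ ψ : StrongDual ℝ E, Continuous fun a => ψ (ε a) :=
    ⟨fun a => (toWeakSpace ℝ E).symm (e a), (toWeakSpace ℝ E).symm.injective.comp hi,
      fun ψ => (WeakBilin.eval_continuous (topDualPairing ℝ E).flip ψ).comp hc⟩
  obtain ⟨d, hd⟩ : ∃ d : K × K → E, ∀ p, d p = ε p.1 - ε p.2 := ⟨_, fun _ => rfl⟩
  obtain ⟨I, _, _, z, hI, hz⟩ := exists_rec (fun (A : Set (K × K)) p => p.1 ≠ p.2 ∧
      ∀ u ∈ span ℝ (d '' A), ∀ c : ℝ, ‖u‖ ≤ ‖u + c • d p‖) fun A hA => by
    by_contra hn
    obtain ⟨D, hD, hD2⟩ := ((hA.image d).isSeparable.span (R := ℝ))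
    choose ψ h1 h2 using exists_dual_vector'' ℝ (E := E)
    have := hD.to_subtype
    refine hK (metr (fun (v : D) a => ψ v (ε a)) (fun v => cc _) fun a b h => ?_)
    by_contra hab
    refine hn ⟨(a, b), hab, fun u hu c => closure_minimal (t := {u | ‖u‖ ≤ ‖u + c • d (a, b)‖})
      (fun v hv => ?_) (isClosed_le (by fun_prop) (by fun_prop)) (hD2 hu)⟩
    have k := ((ψ v).le_opNorm (v + c • d (a, b))).trans
      (mul_le_of_le_one_left (norm_nonneg _) (h1 v))
    rw [map_add, map_smul, hd, map_sub, h ⟨v, hv⟩, sub_self, smul_zero, add_zero, h2] at k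
    simpa [hd] using k
  have hm : ∀ i, ∀ u ∈ span ℝ ((d ∘ z) '' Iio i), ∀ c : ℝ, ‖u‖ ≤ ‖u + c • (d ∘ z) i‖ :=
    fun i u hu => (hz i).2 u (by rwa [← image_comp])
  refine ⟨I, inferInstance, inferInstance, inferInstance, fun i => (z i).1, fun i => (z i).2, hI,
    fun g hg a b ha hb => hε (sub_eq_zero.1 ?_), fun i => ?_⟩
  · have k1 : ∀ m, ε a - ε b ∈ closure (span ℝ ((d ∘ z) '' (g '' Ici m)) : Set E) := fun m => by
      by_contra k
      obtain ⟨ψ, h1, h2⟩ := sep _ k
      have t := (((cc ψ).tendsto a).comp ha).sub (((cc ψ).tendsto b).comp hb)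
      rw [← map_sub, h2] at t
      refine one_ne_zero (tendsto_nhds_unique_of_eventuallyEq t tendsto_const_nhds ?_)
      filter_upwards [Nat.hyperfilter_le_atTop (Ici_mem_atTop m)] with n hn
      simpa [hd] using h1 _ (subset_span ⟨_, ⟨n, hn, rfl⟩, rfl⟩)
    have k2 : ∀ u ∈ span ℝ ((d ∘ z) '' (g '' Ici 0)), ‖u‖ ≤ ‖u + -(ε a - ε b)‖ := fun u hu => by
      rw [← image_comp] at hu
      obtain ⟨t, -, c, rfl⟩ := (mem_span_image_iff_exists_fun ℝ).1 hu
      obtain ⟨m, hm'⟩ := t.exists_nat_subset_range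
      refine mono hm (S := g '' Iio m) (T := g '' Ici m) ?_
        (sum_mem fun j _ => smul_mem _ _ (subset_span ⟨_, ⟨j, Finset.mem_range.1 (hm' j.2), rfl⟩,
          rfl⟩)) (neg_mem (s := (span ℝ _).topologicalClosure) (k1 m))
      rintro _ ⟨i, hi, rfl⟩ _ ⟨j, hj, rfl⟩
      exact hg (hi.trans_le hj)
    have k3 := closure_minimal (t := {u | ‖u‖ ≤ ‖u + -(ε a - ε b)‖}) k2
      (isClosed_le (by fun_prop) (by fun_prop)) (k1 0)
    simpa using k3
  · have k : d (z i) ∉ closure (span ℝ ((d ∘ z) '' {i}ᶜ) : Set E) := by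
      intro k
      have k2 : ∀ w ∈ span ℝ ((d ∘ z) '' {i}ᶜ), ‖d (z i)‖ ≤ 2 * ‖d (z i) - w‖ := fun w hw => by
        rw [← Iio_union_Ioi, image_union, span_union] at hw
        obtain ⟨u, hu, v, hv, rfl⟩ := mem_sup.1 hw
        have a1 := hm i _ (neg_mem hu) 1
        have a2 := mono hm (S := Iic i) (T := Ioi i) (fun _ h1 _ h2 => h1.trans_lt h2)
          (sub_mem (subset_span ⟨i, le_rfl, rfl⟩) (span_mono (image_mono Iio_subset_Iic_self) hu))
          (subset_closure (neg_mem hv))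
        have a3 := norm_add_le (d (z i) - u) u
        rw [norm_neg, one_smul, neg_add_eq_sub] at a1
        rw [← sub_eq_add_neg, sub_sub] at a2
        rw [sub_add_cancel] at a3
        simp only [Function.comp] at a1 a2
        linarith
      have k3 := closure_minimal (t := {w | ‖d (z i)‖ ≤ 2 * ‖d (z i) - w‖}) k2
        (isClosed_le (by fun_prop) (by fun_prop)) k
      exact (hz i).1 (hε (sub_eq_zero.1 (by simpa [hd] using k3)))
    obtain ⟨ψ, h1, h2⟩ := sep _ k
    refine ⟨_, cc ψ, fun j => ?_⟩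
    rw [← map_sub, ← hd]
    split_ifs with k
    · rw [k, h2]
    · exact h1 _ (subset_span ⟨j, k, rfl⟩)

end Weak

end Pool.Agent.MP_55e428_gt.H17
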