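import Mathlib

/-! Uncountable families of pairs that accumulate only at the diagonal, and the map of the space
of continuous functions onto the nonnegative part of a sigma-product. -/

namespace Pool.Agent.MP_55e428_gt.H17

open Set Filter Topology TopologicalSpace

section Target

variable (I : Type)

/-- functions with values in `[0, n]` and fewer than `n` nonzero values -/
def Yn (n : ℕ) : Set (I → ℝ) :=
  {y | (∀ γ, y γ ∈ Icc (0 : ℝ) n) ∧ ∀ s : Finset I, s.card = n → ∏ γ ∈ s, y γ = 0}

lemma Yn_compact (n : ℕ) : IsCompact (Yn I n) := by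
  have h1 : IsCompact (Set.pi univ (fun _ : I => Icc (0 : ℝ) n)) :=
    isCompact_univ_pi fun _ => isCompact_Icc
  have h2 : IsClosed {y : I → ℝ | ∀ s : Finset I, s.card = n → ∏ γ ∈ s, y γ = 0} := by
    simp only [ofPred_forall]
    exact isClosed_iInter fun s => isClosed_iInter fun _ =>
      isClosed_eq (continuous_finsetProd _ fun γ _ => continuous_apply γ) continuous_const
  have : Yn I n = Set.pi univ (fun _ : I => Icc (0 : ℝ) n) ∩
      {y : I → ℝ | ∀ s : Finset I, s.card = n → ∏ γ ∈ s, y γ = 0} := by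
    ext y; simp only [Yn, Set.mem_pi, mem_inter_iff, mem_ofPred_eq, mem_univ, forall_true_left]
  rw [this]
  exact h1.inter_right h2

/-- nonnegative finitely supported functions -/
def YY : Set (I → ℝ) := ⋃ n, Yn I n

lemma YY_sigma : SigmaCompactSpace (YY I) :=
  isSigmaCompact_iff_sigmaCompactSpace.1 (isSigmaCompact_iUnion_of_isCompact _ (Yn_compact I))

variable {I}

lemma mem_YY {y : I → ℝ} : y ∈ YY I ↔ (∀ γ, 0 ≤ y γ) ∧ (Function.support y).Finite := by
  classical
  constructor
  · intro hy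
    obtain ⟨n, hn⟩ := mem_iUnion.1 hy
    refine ⟨fun γ => (hn.1 γ).1, ?_⟩
    by_contra hinf
    obtain ⟨s, hs, hcard⟩ := Set.Infinite.exists_subset_card_eq hinf n
    obtain ⟨γ, hγ, h0⟩ := Finset.prod_eq_zero_iff.1 (hn.2 s hcard)
    exact (hs hγ) h0
  · rintro ⟨h0, hfin⟩
    obtain ⟨B, hB⟩ : ∃ B : ℝ, ∀ γ, y γ ≤ B := by
      refine ⟨∑ γ ∈ hfin.toFinset, y γ, fun γ => ?_⟩
      by_cases hγ : y γ = 0
      · rw [hγ]; exact Finset.sum_nonneg fun a _ => h0 a
      · exact Finset.single_le_sum (f := y) (fun a _ => h0 a) (by simpa using hγ)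
    obtain ⟨m, hm⟩ := exists_nat_ge B
    refine mem_iUnion.2 ⟨max m (hfin.toFinset.card + 1), fun γ => ⟨h0 γ, ?_⟩, fun s hs => ?_⟩
    · refine (hB γ).trans (hm.trans ?_)
      exact_mod_cast le_max_left _ _
    · have hlt : hfin.toFinset.card < s.card := by
        rw [hs]; exact lt_of_lt_of_le (Nat.lt_succ_self _) (le_max_right _ _)
      obtain ⟨γ, hγ, hγ'⟩ := Finset.exists_mem_notMem_of_card_lt_card hlt
      exact Finset.prod_eq_zero hγ (by simpa using hγ')

lemma YY_net [Uncountable I] (N : Set (Set (YY I))) (hN : N.Countable) :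
    ¬ ∀ (y : YY I) (U : Set (YY I)), IsOpen U → y ∈ U → ∃ A ∈ N, y ∈ A ∧ A ⊆ U := by
  classical
  intro hnet
  have hm : ∀ γ : I, (Pi.single γ 1 : I → ℝ) ∈ YY I := fun γ => by
    refine mem_YY.2 ⟨fun δ => ?_, (Set.finite_singleton γ).subset Pi.support_single_subset⟩
    rw [Pi.single_apply]
    split_ifs <;> simp
  have key : ∀ γ : I, ∃ A ∈ N, (⟨Pi.single γ 1, hm γ⟩ : YY I) ∈ A ∧
      A ⊆ {y : YY I | 1 / 2 < y.1 γ} := by
    intro γ
    refine hnet _ _ (isOpen_lt continuous_const
      ((continuous_apply γ).comp continuous_subtype_val)) ?_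
    simp; norm_num
  choose A hAN hA1 hA2 using key
  have hinj : Function.Injective A := by
    intro γ δ hγδ
    have h1 := hA2 γ (hγδ ▸ hA1 δ)
    by_contra hne
    simp [hne] at h1
    norm_num at h1
  exact Set.not_countable_univ
    (Set.MapsTo.countable_of_injOn (f := A) (fun γ _ => hAN γ) hinj.injOn hN)

end Target

variable {K : Type} [TopologicalSpace K]

/-- An uncountable family of pairs of points that accumulates only at the diagonal and whose
members are separated one at a time by continuous functions. -/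
def Pairs (K : Type) [TopologicalSpace K] : Prop :=
  ∃ (I : Type) (_ : LinearOrder I) (_ : WellFoundedLT I) (_ : DecidableEq I) (x y : I → K),
    Uncountable I ∧
    (∀ g : ℕ → I, StrictMono g → ∀ a b, Tendsto (fun n => x (g n)) (hyperfilter ℕ) (𝓝 a) →
      Tendsto (fun n => y (g n)) (hyperfilter ℕ) (𝓝 b) → a = b) ∧
    ∀ i, ∃ f : K → ℝ, Continuous f ∧ ∀ j, f (x j) - f (y j) = if j = i then 1 else 0

lemma exists_strictMono {I : Type} [LinearOrder I] [WellFoundedLT I] {T : Set I}
    (hT : T.Infinite) : ∃ g : ℕ → I, StrictMono g ∧ ∀ n, g n ∈ T := by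
  obtain ⟨g, hg⟩ := (Set.IsWF.of_wellFoundedLT T).isPWO.exists_monotone_subseq
    fun n => (hT.natEmbedding T n).2
  exact ⟨fun n => hT.natEmbedding T (g n), Monotone.strictMono_of_injective hg
    (Subtype.val_injective.comp ((hT.natEmbedding T).injective.comp g.injective)),
    fun n => (hT.natEmbedding T _).2⟩

theorem Pairs.onto [CompactSpace K] (h : Pairs K) :
    ∃ (I : Type) (φ : {f : K → ℝ // Continuous f} → YY I), Uncountable I ∧ Continuous φ ∧
      Function.Surjective φ := by
  obtain ⟨I, _, _, _, x, y, hI, h1, h2⟩ := h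
  have hm : ∀ f : {f : K → ℝ // Continuous f},
      (fun i => max (|f.1 (x i) - f.1 (y i)| - 1) 0) ∈ YY I := fun f => by
    refine mem_YY.2 ⟨fun i => le_max_right _ _, ?_⟩
    by_contra hT
    obtain ⟨g, hg, hT⟩ := exists_strictMono hT
    obtain ⟨a, -, ha⟩ := isCompact_univ.ultrafilter_le_nhds
      ((hyperfilter ℕ).map fun n => x (g n)) (by simp)
    obtain ⟨b, -, hb⟩ := isCompact_univ.ultrafilter_le_nhds
      ((hyperfilter ℕ).map fun n => y (g n)) (by simp)
    obtain rfl := h1 g hg a b ha hb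
    have k := (((f.2.tendsto a).comp ha).sub ((f.2.tendsto a).comp hb)).abs
    have k2 : (1 : ℝ) ≤ |f.1 a - f.1 a| := ge_of_tendsto' k fun n => by
      by_contra k3
      exact hT n (max_eq_right (sub_nonpos.2 (not_le.1 k3).le))
    norm_num at k2
  refine ⟨I, fun f => ⟨_, hm f⟩, hI, Continuous.subtype_mk (continuous_pi fun i => ?_) _, ?_⟩
  · have h : ∀ a : K, Continuous fun f : {f : K → ℝ // Continuous f} => f.1 a :=
      fun a => (continuous_apply a).comp continuous_subtype_val
    exact ((((h _).sub (h _)).abs).sub continuous_const).max continuous_const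
  · rintro ⟨w, hw⟩
    obtain ⟨h0, hfin⟩ := mem_YY.1 hw
    choose F hF1 hF2 using h2
    refine ⟨⟨fun a => ∑ δ ∈ hfin.toFinset, (w δ + 1) * F δ a,
      continuous_finsetSum _ fun δ _ => continuous_const.mul (hF1 δ)⟩, Subtype.ext (funext fun γ => ?_)⟩
    simp only [← Finset.sum_sub_distrib, ← mul_sub, hF2, mul_ite, mul_one, mul_zero,
      Finset.sum_ite_eq, Set.Finite.mem_toFinset, Function.mem_support]
    by_cases hγ : w γ = 0
    · simp [hγ]
    · have := h0 γ
      rw [if_pos hγ, abs_of_nonneg (by linarith)]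
      simp [this]

/-- Recursion along the countable ordinals. -/
lemma exists_rec {α : Type} (R : Set α → α → Prop) (h : ∀ A : Set α, A.Countable → ∃ a, R A a) :
    ∃ (I : Type) (_ : LinearOrder I) (_ : WellFoundedLT I) (z : I → α), Uncountable I ∧
      ∀ i, R (z '' Iio i) (z i) := by
  classical
  obtain ⟨a0, -⟩ := h ∅ countable_empty
  have : Nonempty α := ⟨a0⟩
  choose! nx hnx using h
  let I := (Cardinal.aleph.{0} 1).ord.ToType
  let z : I → α := (wellFounded_lt (α := I)).fix fun i r => nx (range fun j : Iio i => r j.1 j.2)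
  have hz : ∀ i, z i = nx (z '' Iio i) := fun i => by
    rw [image_eq_range]
    exact WellFounded.fix_eq _ _ _
  refine ⟨I, inferInstance, inferInstance, z, ?_, fun i => ?_⟩
  · rw [← Cardinal.aleph0_lt_mk_iff, Cardinal.mk_ord_toType]
    exact Cardinal.aleph0_lt_aleph_one
  · rw [hz]
    refine hnx _ (Set.Countable.image ?_ z)
    rw [← Cardinal.le_aleph0_iff_set_countable, ← Cardinal.lt_aleph_one_iff]
    simpa [I] using Cardinal.mk_Iio_lt i (by simp [I])

lemma metr [CompactSpace K] {ι : Type} [Countable ι] (F : ι → K → ℝ) (hF : ∀ i, Continuous (F i))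
    (h : ∀ a b, (∀ i, F i a = F i b) → a = b) : MetrizableSpace K :=
  ((continuous_pi hF : Continuous fun a i => F i a).isClosedEmbedding
    fun a b e => h a b (congrFun e)).isEmbedding.metrizableSpace

/-- Continuous images of the function space of a metrizable compact space have a countable
network. -/
lemma net_of_metr [CompactSpace K] [MetrizableSpace K] {Y : Type} [TopologicalSpace Y]
    (φ : {f : K → ℝ // Continuous f} → Y) (h1 : Continuous φ) (h2 : Function.Surjective φ) :
    ∃ N : Set (Set Y), N.Countable ∧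
      ∀ (y : Y) (U : Set Y), IsOpen U → y ∈ U → ∃ A ∈ N, y ∈ A ∧ A ⊆ U := by
  let _ := metrizableSpaceMetric K
  have hg : Continuous fun f : C(K, ℝ) => φ ⟨f, f.continuous⟩ :=
    h1.comp (Continuous.subtype_mk (continuous_pi fun a => continuous_eval_const a) _)
  refine ⟨image (fun f : C(K, ℝ) => φ ⟨f, f.continuous⟩) '' countableBasis C(K, ℝ),
    (countable_countableBasis _).image _, fun y U hU hy => ?_⟩
  obtain ⟨f, rfl⟩ := h2 y
  obtain ⟨B, hB, hf, hs⟩ := (isBasis_countableBasis C(K, ℝ)).exists_subset_of_mem_open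
    (a := ⟨f.1, f.2⟩) hy (hU.preimage hg)
  exact ⟨_, ⟨B, hB, rfl⟩, ⟨_, hf, rfl⟩, image_subset_iff.2 hs⟩

end Pool.Agent.MP_55e428_gt.H17
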